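import Pool.Agent.Helper45.RT.Stmts3

/-!
Assembly of the chain (project RTwo, MP_47dd75_co).
-/

set_option autoImplicit false

namespace RTwo

open Finset

/-! ### Joining the pieces of the data -/

def LibTo (K : IC) (Lib : List ℕ) (N : ℕ) : Prop := ∀ j, j < N → ∃ s, libE K (get Lib j) s = true

theorem libTo_zero (K : IC) (Lib : List ℕ) : LibTo K Lib 0 := fun j hj => absurd hj (Nat.not_lt_zero j)

theorem libTo_add (h : ST_LIB) {K : IC} {Lib S : List ℕ} {i l : ℕ} (hi : LibTo K Lib i)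
    (hS : libOK K Lib S i = true) (hl : S.length = l) : LibTo K Lib (i + l) := by
  intro j hj
  by_cases hji : j < i
  · exact hi j hji
  · obtain ⟨s, hs⟩ := h K Lib S i hS (j - i) (by omega)
    rw [show i + (j - i) = j by omega] at hs
    exact ⟨s, hs⟩

def StepTo (k t : ℕ) (T L P : List ℕ) (N : ℕ) : Prop :=
  ∀ j, j < N → ∃ s, chkBase k t T L (get P j) s = true

theorem stepTo_zero (k t : ℕ) (T L P : List ℕ) : StepTo k t T L P 0 :=
  fun j hj => absurd hj (Nat.not_lt_zero j)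

theorem stepTo_add (h : ST_CHK) {k t : ℕ} {T L P S : List ℕ} {i l : ℕ} (hi : StepTo k t T L P i)
    (hS : chk k t T L P S i = true) (hl : S.length = l) : StepTo k t T L P (i + l) := by
  intro j hj
  by_cases hji : j < i
  · exact hi j hji
  · obtain ⟨s, hs⟩ := h k t T L P S i hS (j - i) (by omega)
    rw [show i + (j - i) = j by omega] at hs
    exact ⟨s, hs⟩

def FiltTo (I : ℝ → ℝ → Prop) (L P : List ℕ) (N : ℕ) : Prop :=
  ∀ j, j < N → (∀ c, SymC 7 c → get P j = code 7 c → ¬ Rl I 7 c) ∨ ∃ idx, get L idx = get P j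

theorem filtTo_zero (I : ℝ → ℝ → Prop) (L P : List ℕ) : FiltTo I L P 0 :=
  fun j hj => absurd hj (Nat.not_lt_zero j)

theorem filtTo_add (h : ST_FILT) {I : ℝ → ℝ → Prop} {T L P : List ℕ} {i l ctr s : ℕ}
    (hT : ∀ m, get T m ≠ 0 → Bad I 7 (get T m)) (hi : FiltTo I L P i)
    (hS : filt T L P l i ctr s = true) : FiltTo I L P (i + l) := by
  intro j hj
  by_cases hji : j < i
  · exact hi j hji
  · have := h I T L P l hT i ctr s hS (j - i) (by omega)
    rw [show i + (j - i) = j by omega] at this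
    exact this

/-- the library is forbidden -/
theorem lib_bad (hcov : ST_COV) (hlibe : ST_LIBE) {K : IC} {Lib : List ℕ} {N : ℕ} (hK : SmallC K)
    (hc : cov Lib N = true) (hL : LibTo K Lib N) :
    ∀ a, get Lib a ≠ 0 → BadE (IOK K) (get Lib a) := by
  intro a ha
  by_cases h : a < N
  · obtain ⟨s, hs⟩ := hL a h
    exact hlibe K _ s hK hs
  · exact absurd (hcov Lib N hc a (by omega)) ha

/-- all bases are checked -/
theorem steps (hcov : ST_COV) (hbase : ST_BASE) {I : ℝ → ℝ → Prop} {k t N : ℕ}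
    {T L P : List ℕ} (hk : 2 ≤ k) (hk' : k ≤ 9)
    (hT : ∀ m, get T m ≠ 0 → Bad I (k + 1) (get T m)) (hc : cov P N = true)
    (hS : StepTo k t T L P N) : ∀ idx, get P idx ≠ 0 → StepOK I k t L (get P idx) := by
  intro idx hidx
  by_cases h : idx < N
  · obtain ⟨s, hs⟩ := hS idx h
    exact hbase I k t T L _ s hk hk' hT hs
  · exact absurd (hcov P N hc idx (by omega)) hidx

/-! ### Levels -/

/-- all realizable colourings with at least `t` chords are in the list -/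
def Lev (I : ℝ → ℝ → Prop) (k t : ℕ) (P : List ℕ) : Prop :=
  ∀ c, SymC k c → Rl I k c → 2 * t ≤ tot k c → Cap k c → InL k P c

theorem lev_next (h : ST_LEVELAV) {I : ℝ → ℝ → Prop} {k t t' : ℕ} {P L : List ℕ} (hk : 2 ≤ k)
    (hk' : k ≤ 9) (ht' : 0 < t') (hP : Lev I k t' P)
    (hS : ∀ idx, get P idx ≠ 0 → StepOK I k t L (get P idx))
    (hE : ∀ E, 2 * t ≤ E → 2 * t' ≤ E - 2 * (E / (k + 1))) : Lev I (k + 1) t L :=
  h I k t t' P L hk hk' ht' hS hE hP

theorem rl_mono {I J : ℝ → ℝ → Prop} {n : ℕ} {c : Col} (h : ∀ a b, 0 < a → a < b → I a b → J a b)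
    (hc : Rl I n c) : Rl J n c := by
  obtain ⟨p, a, b, h1, h2, h3, h4, h5⟩ := hc
  exact ⟨p, a, b, h1, h2, h3, h a b h2 h3 h4, h5⟩

theorem lev_filt (h : ST_FILTL) {I : ℝ → ℝ → Prop} {J : ℝ → ℝ → Prop} {P L : List ℕ} {N : ℕ}
    (hIJ : ∀ a b, 0 < a → a < b → I a b → J a b)
    (hP : Lev J 7 12 P) (hc : ∀ idx, N ≤ idx → get P idx = 0) (hF : FiltTo I L P N) :
    Lev I 7 12 L := by
  intro c h1 h2 h3 h4
  exact h I P L N hc hF c h1 (by omega) h2 (hP c h1 (rl_mono hIJ h2) h3 h4)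

/-- restriction to the first vertices -/
theorem rl_last (h : ST_RLR) {I : ℝ → ℝ → Prop} {k : ℕ} {c : Col} (hc : Rl I (k + 1) c) :
    Rl I k c :=
  h I I k (k + 1) c c id hc (fun _ _ h => h) (fun _ _ h _ => h) (fun i hi => by
    simpa using (show i < k + 1 by omega)) (fun _ _ _ _ _ _ h => h)

/-- properties of the colouring after a rotation and the deletion of the last vertex -/
theorem del_props (hrld : ST_RLD) (hrlr : ST_RLR) (hdcol : ST_DCOL) (hdel : ST_DEL)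
    {I : ℝ → ℝ → Prop} {k r : ℕ} {c : Col} (hs : SymC (k + 1) c) (hr : Rl I (k + 1) c)
    (hcap : Cap (k + 1) c) :
    SymC (k + 1) (dcol (k + 1) r 0 c) ∧ SymC k (dcol (k + 1) r 0 c) ∧
      Rl I k (dcol (k + 1) r 0 c) ∧ Cap k (dcol (k + 1) r 0 c) ∧
      tot (k + 1) c = tot k (dcol (k + 1) r 0 c) + 2 * dgr (k + 1) (dcol (k + 1) r 0 c) k := by
  obtain ⟨h1, h2, h3, -⟩ := hdcol (k + 1) r 0 c (Nat.succ_pos k) hs
  obtain ⟨h5, h6, h7, h8, -⟩ := hdel k _ h1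
  refine ⟨h1, h5, rl_last hrlr (hrld I (k + 1) r 0 c (Nat.succ_pos k) hr), ?_, ?_⟩
  · obtain ⟨ha, hb⟩ := hcap
    exact ⟨by omega, by omega⟩
  · have : tot (k + 1) (dcol (k + 1) r 0 c) = tot (k + 1) c := by
      unfold tot
      rw [h2, h3]
    omega

/-- nine vertices -/
def Lev9 (I : ℝ → ℝ → Prop) (P : List ℕ) : Prop :=
  ∀ c, SymC 9 c → Rl I 9 c → 36 ≤ tot 9 c → Cap 9 c → (∃ v, v < 9 ∧ 30 + 2 * dgr 9 c v ≤ tot 9 c) →
    InL 9 P c

theorem lev_nine (hlev : ST_LEVEL) (hmin : ST_MIN) (hrld : ST_RLD) (hrlr : ST_RLR)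
    (hdcol : ST_DCOL) (hdel : ST_DEL) (hdsg : ST_DSG) {I : ℝ → ℝ → Prop} {P L : List ℕ}
    (hP : Lev I 8 15 P) (hS : ∀ idx, get P idx ≠ 0 → StepOK I 8 18 L (get P idx)) : Lev9 I L := by
  intro c h1 h2 h3 h4 h5
  obtain ⟨r, hr, hr1, -⟩ := hmin 8 c h1
  obtain ⟨g1, g2, g3, g4, g5⟩ := del_props hrld hrlr hdcol hdel (r := r) h1 h2 h4
  obtain ⟨v, hv, hv'⟩ := h5
  -- the vertex `v` after the rotation
  obtain ⟨d1, d2, d3, d4⟩ := hdsg 9 (by norm_num)
  obtain ⟨r', f', -, hrf⟩ := d4 r 0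
  have hw := hr1 (dsg 9 r' f' v) (Nat.lt_succ_iff.1 (d1 r' f' v hv))
  obtain ⟨-, -, -, e4⟩ := hdcol 9 r 0 c (by norm_num) h1
  rw [e4 (dsg 9 r' f' v) (d1 r' f' v hv), (hrf v hv).1] at hw
  simp only [Nat.reduceAdd] at hw g1 g2 g3 g4 g5 hr1
  have hb : 2 * 15 ≤ tot 8 (dcol 9 r 0 c) := by omega
  have hin := hP _ g2 g3 hb g4
  exact hlev I 8 18 P L c (by norm_num) (by norm_num) hS h1 h2 (show 2 * 18 ≤ tot 9 c by omega)
    h4 r hr hr1 (show 0 < tot 8 (dcol 9 r 0 c) by omega) hin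

/-- ten vertices -/
theorem no_ten (hlev : ST_LEVEL) (hten : ST_TEN) (hrld : ST_RLD) (hrlr : ST_RLR)
    (hdcol : ST_DCOL) (hdel : ST_DEL) {I : ℝ → ℝ → Prop} {P L : List ℕ}
    (hP : Lev9 I P) (hS : ∀ idx, get P idx ≠ 0 → StepOK I 9 22 L (get P idx)) :
    ∀ c, SymC 10 c → Rl I 10 c → totA 10 c = 22 → totB 10 c = 22 → InL 10 L c := by
  intro c h1 h2 h3 h4
  have ht : tot 10 c = 44 := by unfold tot; omega
  have hcap : Cap 10 c := ⟨h3.le, h4.le⟩
  obtain ⟨r, hr, hr1, hr2, hr3⟩ := hten c h1 ht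
  obtain ⟨g1, g2, g3, g4, g5⟩ := del_props hrld hrlr hdcol hdel (r := r) h1 h2 hcap
  simp only [Nat.reduceAdd] at g1 g2 g3 g4 g5
  have hin := hP _ g2 g3 hr2 g4 hr3
  exact hlev I 9 22 P L c (by norm_num) (by norm_num) hS h1 h2 (show 2 * 22 ≤ tot 10 c by omega)
    hcap r hr (fun v hv => hr1 v (Nat.lt_succ_of_le hv))
    (show 0 < tot 9 (dcol 10 r 0 c) by omega) hin

/-! ### Conclusions for one interval -/

/-- no realizable colouring with `m` chords of each colour -/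
def None2 (I : ℝ → ℝ → Prop) (n m : ℕ) : Prop :=
  ∀ c, SymC n c → Rl I n c → ¬ (totA n c = 2 * m ∧ totB n c = 2 * m)

theorem none_of_lev (hscan : ST_SCAN) (hcov : ST_COV) {I : ℝ → ℝ → Prop} {n t m N : ℕ}
    {L : List ℕ} (hn : 0 < n) (hn' : n ≤ 10) (hL : Lev I n t L) (hc : cov L N = true)
    (hs : scan n (2 * m) L N 0 = true) (ht : 2 * t ≤ 4 * m) (hm : 0 < m) (hm' : m ≤ 11) :
    None2 I n m := by
  intro c h1 h2 h3
  have htot : tot n c = 4 * m := by unfold tot; omega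
  exact hscan n (2 * m) N L hn hn' hs (hcov L N hc) c h1 (by omega)
    (hL c h1 h2 (by omega) ⟨by omega, by omega⟩) ⟨by omega, by omega⟩

theorem none_nine (hscan : ST_SCAN) (hcov : ST_COV) (hmin : ST_MIN) (hdcol : ST_DCOL)
    {I : ℝ → ℝ → Prop} {N : ℕ} {L : List ℕ} (hL : Lev9 I L) (hc : cov L N = true)
    (hs : scan 9 20 L N 0 = true) : None2 I 9 10 := by
  intro c h1 h2 h3
  have htot : tot 9 c = 40 := by unfold tot; omega
  obtain ⟨r, hr, -, hr2⟩ := hmin 8 c h1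
  obtain ⟨-, -, -, e4⟩ := hdcol 9 r 0 c (by norm_num) h1
  have h8 := e4 8 (by norm_num)
  simp only [Nat.reduceAdd] at hr2
  have hlt : dsg 9 r 0 8 < 9 := by
    unfold dsg
    simp only [if_true]
    exact Nat.mod_lt _ (by norm_num)
  exact hscan 9 20 N L (by norm_num) (by norm_num) hs (hcov L N hc) c h1 (by omega)
    (hL c h1 h2 (by omega) ⟨by omega, by omega⟩ ⟨dsg 9 r 0 8, hlt, by omega⟩)
    ⟨by omega, by omega⟩

theorem none_ten {I : ℝ → ℝ → Prop} (hget : ST_GET) (hscan : ST_SCAN)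
    (h : ∀ c, SymC 10 c → Rl I 10 c → totA 10 c = 22 → totB 10 c = 22 → InL 10 [] c) :
    None2 I 10 11 := by
  intro c h1 h2 h3
  refine hscan 10 22 0 [] (by norm_num) le_rfl rfl (fun idx _ => hget.1 idx) c h1 ?_
    (h c h1 h2 h3.1 h3.2) ⟨by omega, by omega⟩
  unfold tot
  omega

end RTwo
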