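/-!
Kernel evaluated checker for two-coloured chord patterns of convex polygons.
A pattern on at most ten vertices is a number: the digit (two bits) at position `10 * x + y`
is the colour of the chord `x y`.
-/

set_option autoImplicit false

namespace RTwo

noncomputable def sel (b : Bool) (x y : Bool) : Bool := Bool.rec y x b

noncomputable def seln (b : Bool) (x y : Nat) : Nat := Bool.rec y x b

/-- entry `i` of an array of 200 bit numbers, in chunks of 1024 entries -/
noncomputable def get (L : List Nat) : Nat → Nat :=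
  List.rec (motive := fun _ => Nat → Nat) (fun _ => 0)
    (fun c _ ih i => seln (Nat.ble 1024 i) (ih (Nat.sub i 1024))
      (Nat.land (Nat.shiftRight c (Nat.mul 200 i))
        1606938044258990275541962092341162602522202993782792835301375)) L

/-- columns `0` of all rows -/
def C0 : Nat := 1532497002368919987165402658218212910399545090988048385

/-- rotation of a pattern on `k` vertices: vertex `i` of the new pattern is vertex `i + r` -/
def rotr (k r X : Nat) : Nat :=
  (fun Y => Nat.lor
    (Nat.land (Nat.shiftRight Y (Nat.mul 2 r)) (Nat.mul C0 (Nat.sub (Nat.pow 4 (Nat.sub k r)) 1)))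
    (Nat.shiftLeft (Nat.land Y (Nat.mul C0 (Nat.sub (Nat.pow 4 r) 1))) (Nat.mul 2 (Nat.sub k r))))
  (Nat.lor (Nat.shiftRight X (Nat.mul 20 r))
    (Nat.shiftLeft (Nat.mod X (Nat.pow 2 (Nat.mul 20 r))) (Nat.mul 20 (Nat.sub k r))))

/-- exchange neighbouring blocks of `s` bits, `m` is the mask of the even blocks -/
def swp (m s X : Nat) : Nat :=
  Nat.lor (Nat.land (Nat.shiftRight X s) m) (Nat.shiftLeft (Nat.land X m) s)

/-- reversal of the vertices of a pattern on `n` vertices -/
def revn (n X : Nat) : Nat :=
  Nat.shiftRight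
    (swp 0xffffffffffffffffffffffffffffffff 128
    (swp 0x0000000000000000ffffffffffffffff0000000000000000ffffffffffffffff 64
    (swp 0x00000000ffffffff00000000ffffffff00000000ffffffff00000000ffffffff 32
    (swp 0x0000ffff0000ffff0000ffff0000ffff0000ffff0000ffff0000ffff0000ffff 16
    (swp 0x00ff00ff00ff00ff00ff00ff00ff00ff00ff00ff00ff00ff00ff00ff00ff00ff 8
    (swp 0x0f0f0f0f0f0f0f0f0f0f0f0f0f0f0f0f0f0f0f0f0f0f0f0f0f0f0f0f0f0f0f0f 4
    (swp 0x3333333333333333333333333333333333333333333333333333333333333333 2 X)))))))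
    (Nat.sub 276 (Nat.mul 22 n))

/-- add the column `k` symmetric to the row `k` -/
noncomputable def symk (k cur : Nat) : Nat :=
  Nat.rec (motive := fun _ => Nat) cur
    (fun j ih => Nat.lor ih (Nat.shiftLeft
      (Nat.mod (Nat.shiftRight cur (Nat.add (Nat.mul 20 k) (Nat.mul 2 j))) 4)
      (Nat.add (Nat.mul 20 j) (Nat.mul 2 k)))) k

/-- the dihedral image of the pattern `X` on `n` vertices -/
noncomputable def dih (n r f X : Nat) : Nat :=
  rotr n r (seln (Nat.beq f 0) X (revn n X))

noncomputable def acceptC (k : Nat) (L : List Nat) (cur s : Nat) : Bool :=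
  sel (Nat.ble (Nat.mod (Nat.shiftRight s 14) 16) k)
    (Nat.beq (dih (Nat.succ k) (Nat.mod (Nat.shiftRight s 14) 16)
      (Nat.mod (Nat.shiftRight s 18) 2) (symk k cur)) (get L (Nat.mod s 16384))) false

/-- closing by a forbidden pattern -/
noncomputable def maskC (cur M : Nat) (x : Bool) : Bool :=
  sel (Nat.beq (Nat.land cur M) M) (sel (Nat.beq M 0) false x) false

/-- a child with a new chord -/
noncomputable def colC (T : List Nat) (ih : Nat → Nat → Nat → Nat → Nat → Nat → Nat → Nat → (Nat → Bool) → Bool)
    (cur und ra rb u mz b s m rc : Nat) (K : Nat → Bool) : Bool :=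
  sel (Nat.beq m 0)
    (sel (Nat.beq rc 0) (K s)
      (sel (Nat.ble mz b) (K s)
        (ih cur und ra rb u mz (Nat.succ b) s K)))
    (maskC cur (get T m) (K s))

/-- the child without a new chord -/
noncomputable def zeroC (bq : Nat)
    (ih : Nat → Nat → Nat → Nat → Nat → Nat → Nat → Nat → (Nat → Bool) → Bool)
    (cur und ra rb u mz b d s : Nat) (K : Nat → Bool) : Bool :=
  sel (Nat.ble (Nat.add b u) bq) (K s)
    (sel (Nat.ble bq d)
      (sel (Nat.ble b d)
        (ih cur und ra rb (Nat.pred u) (seln (Nat.ble d mz) d mz) b s K)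
        (K s))
      (K s))

noncomputable def nodeC (k bq D : Nat) (T : List Nat)
    (ih : Nat → Nat → Nat → Nat → Nat → Nat → Nat → Nat → (Nat → Bool) → Bool)
    (cur und ra rb u mz b s j m1 m2 : Nat) (K : Nat → Bool) : Bool :=
  sel (Nat.beq (Nat.mod (Nat.shiftRight und j) 2) 1)
    (colC T ih (Nat.add cur (Nat.shiftLeft 1 (Nat.add (Nat.mul 20 k) (Nat.mul 2 j))))
      (Nat.sub und (Nat.shiftLeft 1 j)) (Nat.pred ra) rb (Nat.pred u) mz b s m1 ra
      (fun s1 => colC T ih (Nat.add cur (Nat.shiftLeft 2 (Nat.add (Nat.mul 20 k) (Nat.mul 2 j))))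
        (Nat.sub und (Nat.shiftLeft 1 j)) ra (Nat.pred rb) (Nat.pred u) mz b s1 m2 rb
        (fun s2 => zeroC bq ih cur (Nat.sub und (Nat.shiftLeft 1 j)) ra rb u mz b
          (Nat.mod (Nat.shiftRight D (Nat.mul 4 j)) 16) s2 K)))
    false

/-- the decision tree: `cur` pattern so far, `und` undecided vertices, `ra rb` numbers of chords
still allowed, `u` number of undecided vertices, `mz` bound for the degree `b` of the new vertex,
`s` certificate -/
noncomputable def go (k bq D : Nat) (T L : List Nat) :
    Nat → Nat → Nat → Nat → Nat → Nat → Nat → Nat → Nat → (Nat → Bool) → Bool :=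
  Nat.rec (motive := fun _ => Nat → Nat → Nat → Nat → Nat → Nat → Nat → Nat → (Nat → Bool) → Bool)
    (fun _ _ _ _ _ _ _ _ _ => false)
    (fun _ ih cur und ra rb u mz b s K =>
      sel (Nat.beq u 0)
        (sel (acceptC k L cur s) (K (Nat.shiftRight s 20)) false)
        (nodeC k bq D T ih cur und ra rb u mz b (Nat.shiftRight s 36) (Nat.mod s 16)
          (Nat.mod (Nat.shiftRight s 4) 65536) (Nat.mod (Nat.shiftRight s 20) 65536) K))

/-- number of nonzero base four digits of a number with digits `0, 1` -/
def pop (A : Nat) : Nat :=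
  Nat.mod (Nat.add (Nat.land A 209715) (Nat.land (Nat.shiftRight A 2) 209715)) 15

def rowA (X v : Nat) : Nat := pop (Nat.land (Nat.shiftRight X (Nat.mul 20 v)) 349525)

def rowB (X v : Nat) : Nat := pop (Nat.land (Nat.shiftRight X (Nat.succ (Nat.mul 20 v))) 349525)

noncomputable def sumA (X k : Nat) : Nat :=
  Nat.rec (motive := fun _ => Nat) 0 (fun v ih => Nat.add (rowA X v) ih) k

noncomputable def sumB (X k : Nat) : Nat :=
  Nat.rec (motive := fun _ => Nat) 0 (fun v ih => Nat.add (rowB X v) ih) k

noncomputable def degs (X k : Nat) : Nat :=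
  Nat.rec (motive := fun _ => Nat) 0
    (fun v ih => Nat.add (Nat.shiftLeft (Nat.add (rowA X v) (rowB X v)) (Nat.mul 4 v)) ih) k

noncomputable def minD (X k : Nat) : Nat :=
  Nat.rec (motive := fun _ => Nat) 15
    (fun v ih => seln (Nat.ble (Nat.add (rowA X v) (rowB X v)) ih)
      (Nat.add (rowA X v) (rowB X v)) ih) k

noncomputable def rotD (k D : Nat) : Nat :=
  Nat.add (Nat.shiftRight D 4) (Nat.shiftLeft (Nat.mod D 16) (Nat.mul 4 (Nat.pred k)))

noncomputable def loopG (k bq ra rb mz : Nat) (T L : List Nat) : Nat → Nat → Nat → Nat → Bool :=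
  Nat.rec (motive := fun _ => Nat → Nat → Nat → Bool) (fun _ _ _ => true)
    (fun _ ih X D s => go k bq D T L (Nat.succ k) X (Nat.pred (Nat.pow 2 k)) ra rb k mz 0 s
      (fun s' => ih (rotr k 1 X) (rotD k D) s'))

noncomputable def chkBase2 (k : Nat) (T L : List Nat) (X s a b m bq : Nat) : Bool :=
  sel (Nat.ble bq (Nat.succ m))
    (sel (Nat.ble bq k)
      (loopG k bq (Nat.sub 11 a) (Nat.sub 11 b) (Nat.succ m) T L k X (degs X k) s) true) true

noncomputable def chkBase (k t : Nat) (T L : List Nat) (X s : Nat) : Bool :=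
  chkBase2 k T L X s (Nat.div (sumA X k) 2) (Nat.div (sumB X k) 2) (minD X k)
    (Nat.sub t (Nat.div (Nat.add (sumA X k) (sumB X k)) 2))

/-- bases `i, i + 1, ...` of the list `P` with certificates `S` -/
noncomputable def chk (k t : Nat) (T L P : List Nat) (S : List Nat) : Nat → Bool :=
  List.rec (motive := fun _ => Nat → Bool) (fun _ => true)
    (fun s _ ih i => sel (chkBase k t T L (get P i) s) (ih (Nat.succ i)) false) S

/-- patterns `i, i + 1, ...` of `P`: each contains a forbidden pattern of the table `T` or is the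
next pattern of `L` -/
noncomputable def filt (T L P : List Nat) : Nat → Nat → Nat → Nat → Bool :=
  Nat.rec (motive := fun _ => Nat → Nat → Nat → Bool) (fun _ _ _ => true)
    (fun _ ih i ctr s =>
      sel (Nat.beq (Nat.mod s 65536) 0)
        (sel (Nat.beq (get P i) (get L ctr)) (ih (Nat.succ i) (Nat.succ ctr) (Nat.shiftRight s 16))
          false)
        (maskC (get P i) (get T (Nat.mod s 65536))
          (ih (Nat.succ i) ctr (Nat.shiftRight s 16))))

/-- all entries of `L` from the index on are zero -/
noncomputable def cov (L : List Nat) : Nat → Bool :=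
  List.rec (motive := fun _ => Nat → Bool) (fun _ => true)
    (fun c _ ih N => sel (Nat.ble 1024 N) (ih (Nat.sub N 1024))
      (sel (Nat.beq (Nat.shiftRight c (Nat.mul 200 N)) 0) (ih 0) false)) L

/-- no pattern `i, i + 1, ...` of `L` has at least `x / 2` chords of both colours -/
noncomputable def scan (n x : Nat) (L : List Nat) : Nat → Nat → Bool :=
  Nat.rec (motive := fun _ => Nat → Bool) (fun _ => true)
    (fun _ ih i => sel (Nat.ble x (sumA (get L i) n))
      (sel (Nat.ble x (sumB (get L i) n)) false (ih (Nat.succ i))) (ih (Nat.succ i)))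

/-! ### Placements: the table of forbidden patterns -/

/-- the list of the vertices `(s + o) mod n` or `(s + n - o) mod n`, `o` in the set `S`,
four bits each -/
noncomputable def vlist (n s d S : Nat) : Nat → Nat → Nat :=
  Nat.rec (motive := fun _ => Nat → Nat) (fun acc => acc)
    (fun f ih acc => ih (seln (Nat.beq (Nat.mod (Nat.shiftRight S f) 2) 1)
      (Nat.add (Nat.mul 16 acc)
        (Nat.mod (Nat.add s (seln (Nat.beq d 0) f (Nat.sub n f))) n)) acc))

noncomputable def nib (G i : Nat) : Nat := Nat.mod (Nat.shiftRight G (Nat.mul 4 i)) 16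

/-- the colour of the chord `x y` in the table entry `M` -/
noncomputable def colM (M x y : Nat) : Nat :=
  Nat.mod (Nat.shiftRight M (seln (Nat.ble y x) (Nat.add (Nat.mul 20 x) (Nat.mul 2 y))
    (Nat.add (Nat.mul 20 y) (Nat.mul 2 x)))) 4

/-- all chords of the list `W` (ten bits each: `i`, `j`, colour) occur in `M` at the places `G` -/
noncomputable def place (M G : Nat) : Nat → Nat → Bool :=
  Nat.rec (motive := fun _ => Nat → Bool) (fun W => Nat.beq W 0)
    (fun _ ih W => sel (Nat.beq W 0) true
      (sel (Nat.beq (colM M (nib G (Nat.mod W 16)) (nib G (Nat.mod (Nat.shiftRight W 4) 16)))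
        (Nat.mod (Nat.shiftRight W 8) 4)) (ih (Nat.shiftRight W 10)) false))

/-- number of elements of `S` below `f` -/
noncomputable def cardS (S : Nat) : Nat → Nat :=
  Nat.rec (motive := fun _ => Nat) 0 (fun v ih => Nat.add (Nat.mod (Nat.shiftRight S v) 2) ih)

/-- entry of the library: number of vertices (four bits) and list of chords -/
noncomputable def entOK (n : Nat) (Lib : List Nat) (M s : Nat) : Bool :=
  (fun E => sel (Nat.beq (Nat.mod E 16) (cardS (Nat.mod (Nat.shiftRight s 20) 1024) n))
    (sel (Nat.beq E 0) false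
      (sel (Nat.ble (Nat.succ (Nat.mod (Nat.shiftRight s 15) 16)) n)
        (place M (vlist n (Nat.mod (Nat.shiftRight s 15) 16) (Nat.mod (Nat.shiftRight s 19) 2)
          (Nat.mod (Nat.shiftRight s 20) 1024) n 0) 20 (Nat.shiftRight E 4)) false)) false)
  (get Lib (Nat.mod s 32768))

/-- entries `i, i + 1, ...` (`f` of them) of the chunk `c`; certificates of 32 bits -/
noncomputable def tabOK (n c : Nat) (Lib : List Nat) : Nat → Nat → Nat → Bool :=
  Nat.rec (motive := fun _ => Nat → Nat → Bool) (fun _ _ => true)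
    (fun _ ih i s => (fun M => sel (Nat.beq M 0) (ih (Nat.succ i) (Nat.shiftRight s 32))
        (sel (entOK n Lib M s) (ih (Nat.succ i) (Nat.shiftRight s 32)) false))
      (Nat.land (Nat.shiftRight c (Nat.mul 200 i))
        1606938044258990275541962092341162602522202993782792835301375))

/-! ### Farkas certificates -/

/-- constants of an interval of ratios, angles in units `π / D` -/
structure IC where
  D : Nat
  al : Nat
  ah : Nat
  bl : Nat
  bh : Nat
  kn : Nat
  kd : Nat
  qn : Nat
  qd : Nat
  ga : Nat
  /-- `2 a ≤ b` -/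
  na : Bool
  /-- the bound `ah` may be used -/
  ua : Bool
  /-- the rows with `kn / kd` may be used -/
  uk : Bool

/-- pattern of a list of chords -/
noncomputable def pat : Nat → Nat → Nat → Nat :=
  Nat.rec (motive := fun _ => Nat → Nat → Nat) (fun _ acc => acc)
    (fun _ ih W acc => seln (Nat.beq W 0) acc
      (ih (Nat.shiftRight W 10)
        (Nat.lor acc (Nat.lor
          (Nat.shiftLeft (Nat.mod (Nat.shiftRight W 8) 4)
            (Nat.add (Nat.mul 20 (Nat.mod W 16)) (Nat.mul 2 (Nat.mod (Nat.shiftRight W 4) 16))))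
          (Nat.shiftLeft (Nat.mod (Nat.shiftRight W 8) 4)
            (Nat.add (Nat.mul 20 (Nat.mod (Nat.shiftRight W 4) 16)) (Nat.mul 2 (Nat.mod W 16))))))))

noncomputable def col (F x y : Nat) : Nat :=
  Nat.mod (Nat.shiftRight F (Nat.add (Nat.mul 20 x) (Nat.mul 2 y))) 4

/-- select by position `0, 1, 2` -/
noncomputable def s3 (p x y z : Nat) : Nat := seln (Nat.beq p 0) x (seln (Nat.beq p 1) y z)

/-- the direction variable of the chord `x y` -/
noncomputable def ph (x y : Nat) : Nat :=
  Nat.shiftLeft 1 (Nat.add (Nat.add (Nat.mul 960 x) (Nat.mul 96 y)) 288)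

/-- positive and negative part of the angle at the `p`-th vertex of the triangle `i j k` -/
noncomputable def aP (D i j k p : Nat) : Nat := s3 p (ph i k) (Nat.add D (ph i j)) (ph j k)

noncomputable def aN (i j k p : Nat) : Nat := s3 p (ph i j) (ph j k) (ph i k)

/-- opposite side and adjacent sides -/
noncomputable def oc (F i j k p : Nat) : Nat := s3 p (col F j k) (col F i k) (col F i j)

noncomputable def ad1 (F i j k p : Nat) : Nat := s3 p (col F i j) (col F i j) (col F i k)

noncomputable def ad2 (F i j k p : Nat) : Nat := s3 p (col F i k) (col F j k) (col F j k)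

noncomputable def and3 (a b c : Bool) : Bool := sel a (sel b c false) false

/-- the other vertices of the triangle: `e = 0` the first, `e = 1` the second -/
noncomputable def ov (i j k p e : Nat) : Nat :=
  seln (Nat.beq e 0) (s3 p j i i) (s3 p k k j)

/-- colours of a triangle: opposite `o`, adjacent `x` -/
noncomputable def isoT (F i j k p o x : Nat) : Bool :=
  and3 (Nat.beq (oc F i j k p) o) (Nat.beq (ad1 F i j k p) x) (Nat.beq (ad2 F i j k p) x)

/-- hinge: the triangles `i j k` (apex `p`) and `i' j' k'` (apex `q`) share the side from the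
apex to the other vertex number `e` and `e'`; the other sides at the apex have the same
colour; the opposite sides have colours `c ≥ c'` -/
noncomputable def hng (F i j k p e i' j' k' q e' : Nat) : Bool :=
  and3
    (and3 (Nat.beq (col F (s3 p i j k) (ov i j k p (Nat.sub 1 e)))
        (col F (s3 q i' j' k') (ov i' j' k' q (Nat.sub 1 e'))))
      (Nat.ble 1 (col F (s3 p i j k) (ov i j k p (Nat.sub 1 e))))
      (Nat.ble 1 (oc F i' j' k' q)))
    (Nat.beq (Nat.add (s3 p i j k) (ov i j k p e)) (Nat.add (s3 q i' j' k') (ov i' j' k' q e')))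
    (Nat.beq (Nat.mul (s3 p i j k) (ov i j k p e)) (Nat.mul (s3 q i' j' k') (ov i' j' k' q e')))

/-- the row of a certificate: validity and the two parts, given to the continuation `K`
(third argument: strict) -/
noncomputable def row (C : IC) (F kd i j k p i' j' k' q e e' : Nat) (K : Nat → Nat → Nat → Bool) :
    Bool :=
  sel (Nat.ble kd 5)
    (sel (Nat.beq kd 0) (K (aP C.D i j k p) (aN i j k p) 1)
    (sel (Nat.beq kd 1)
      (and3 (Nat.beq (oc F i j k p) (oc F i j k q)) (Nat.ble 1 (oc F i j k p))
        (K (Nat.add (aP C.D i j k p) (aN i j k q)) (Nat.add (aN i j k p) (aP C.D i j k q)) 0))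
      (and3 (Nat.beq (oc F i j k p) 2) (Nat.beq (oc F i j k q) 1)
        (sel (Nat.beq kd 2)
          (K (Nat.add (aP C.D i j k p) (aN i j k q)) (Nat.add (aN i j k p) (aP C.D i j k q)) 1)
        (sel C.uk
          (sel (Nat.beq kd 3)
            (K (Nat.add (Nat.mul C.kn (aP C.D i j k p)) (Nat.mul C.kd (aN i j k q)))
              (Nat.add (Nat.mul C.kn (aN i j k p)) (Nat.mul C.kd (aP C.D i j k q))) 1)
          (sel (Nat.beq kd 4)
            (K (Nat.add (Nat.mul C.kn (Nat.add C.D (aN i j k p))) (Nat.mul C.kd (aN i j k q)))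
              (Nat.add (Nat.mul C.kn (aP C.D i j k p)) (Nat.mul C.kd (aP C.D i j k q))) 1)
            (K (Nat.add C.ga (aN i j k q)) (aP C.D i j k q) 1))) false)))))
  (sel (Nat.ble kd 9)
    (sel (Nat.ble kd 7)
      (sel (isoT F i j k p 2 1)
        (sel (Nat.beq kd 6)
          (K (aP C.D i j k p) (Nat.add (aN i j k p) 79228162514264337593543950336) 0)
          (K (Nat.add (aN i j k p) 79228162514264337593543950336) (aP C.D i j k p) 0)) false)
      (sel (isoT F i j k p 1 2)
        (sel (Nat.beq kd 8)
          (K (aP C.D i j k p)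
            (Nat.add (aN i j k p) 6277101735386680763835789423207666416102355444464034512896) 0)
          (K (Nat.add (aN i j k p) 6277101735386680763835789423207666416102355444464034512896)
            (aP C.D i j k p) 0)) false))
  (sel (Nat.ble kd 11)
    (sel (hng F i j k p e i' j' k' q e')
      (sel (Nat.beq kd 10)
        (sel (Nat.beq (oc F i j k p) (oc F i' j' k' q))
          (K (Nat.add (aP C.D i j k p) (aN i' j' k' q)) (Nat.add (aN i j k p) (aP C.D i' j' k' q)) 0)
          false)
        (and3 (Nat.beq (oc F i j k p) 2) (Nat.beq (oc F i' j' k' q) 1)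
          (K (Nat.add (aP C.D i j k p) (aN i' j' k' q)) (Nat.add (aN i j k p) (aP C.D i' j' k' q))
            1)))
      false)
  (sel (Nat.ble kd 14)
    (and3
      (and3 (Nat.beq (ad1 F i j k p) 1) (Nat.beq (ad2 F i j k p) 1) C.uk)
      (and3 (Nat.beq (ad1 F i' j' k' q) 2) (Nat.beq (ad2 F i' j' k' q) 2)
        (Nat.beq (Nat.add (ov i j k p 0) (ov i j k p 1))
          (Nat.add (ov i' j' k' q 0) (ov i' j' k' q 1))))
      (sel (Nat.beq (Nat.mul (ov i j k p 0) (ov i j k p 1))
          (Nat.mul (ov i' j' k' q 0) (ov i' j' k' q 1)))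
        (sel (Nat.beq kd 12)
          (K (Nat.add (Nat.mul C.kn (aP C.D i j k p)) (Nat.mul C.kd (aN i' j' k' q)))
            (Nat.add (Nat.mul C.kn (aN i j k p)) (Nat.mul C.kd (aP C.D i' j' k' q))) 1)
        (sel (Nat.beq kd 13)
          (K (Nat.add (Nat.mul C.qd (aP C.D i' j' k' q)) (Nat.mul C.qn (aN i j k p)))
            (Nat.add (Nat.mul C.qd (aN i' j' k' q)) (Nat.mul C.qn (aP C.D i j k p))) 1)
          (K (Nat.add (Nat.mul 2 C.ga) (aN i' j' k' q)) (aP C.D i' j' k' q) 1)))
        false))
  (sel (Nat.beq kd 15) (K 79228162514264337593543950336 C.al 1)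
  (sel (Nat.beq kd 16) (sel C.ua (K C.ah 79228162514264337593543950336 1) false)
  (sel (Nat.beq kd 17)
    (K 6277101735386680763835789423207666416102355444464034512896 C.bl 1)
  (sel (Nat.beq kd 18)
    (K C.bh 6277101735386680763835789423207666416102355444464034512896 1)
    (and3 C.na (isoT F i j k p 2 1) (K 0 1 1)))))))))

/-- sum of the rows of the certificate `s` (80 bits each): kind 5, `i j k` 12, `p` 2,
`i' j' k'` 12, `q` 2, `e e'` 2, multiplier 45 -/
noncomputable def fark (C : IC) (m F : Nat) : Nat → Nat → Nat → Nat → Nat → Bool :=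
  Nat.rec (motive := fun _ => Nat → Nat → Nat → Nat → Bool) (fun _ _ _ _ => false)
    (fun _ ih s P N st =>
      sel (Nat.beq s 0)
        (sel (Nat.ble P N)
          (sel (Nat.ble (Nat.succ (Nat.sub N P)) 4722366482869645213696)
            (Nat.ble 1 (Nat.add st (Nat.sub N P))) false) false)
        ((fun i j k i' j' k' =>
          and3 (and3 (Nat.ble (Nat.succ i) j) (Nat.ble (Nat.succ j) k) (Nat.ble (Nat.succ k) m))
            (and3 (Nat.ble (Nat.succ i') j') (Nat.ble (Nat.succ j') k') (Nat.ble (Nat.succ k') m))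
            (row C F (Nat.mod s 32) i j k (Nat.mod (Nat.shiftRight s 17) 4) i' j' k'
              (Nat.mod (Nat.shiftRight s 31) 4) (Nat.mod (Nat.shiftRight s 33) 2)
              (Nat.mod (Nat.shiftRight s 34) 2)
              (fun x y z => ih (Nat.shiftRight s 80)
                (Nat.add P (Nat.mul x (Nat.mod (Nat.shiftRight s 35) 35184372088832)))
                (Nat.add N (Nat.mul y (Nat.mod (Nat.shiftRight s 35) 35184372088832)))
                (Nat.add st (Nat.mul z (Nat.mod (Nat.shiftRight s 35) 35184372088832))))))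
          (Nat.mod (Nat.shiftRight s 5) 16) (Nat.mod (Nat.shiftRight s 9) 16)
          (Nat.mod (Nat.shiftRight s 13) 16) (Nat.mod (Nat.shiftRight s 19) 16)
          (Nat.mod (Nat.shiftRight s 23) 16) (Nat.mod (Nat.shiftRight s 27) 16)))

/-- all chords of the list `W` have vertices below `m` -/
noncomputable def okW (m : Nat) : Nat → Nat → Bool :=
  Nat.rec (motive := fun _ => Nat → Bool) (fun W => Nat.beq W 0)
    (fun _ ih W => sel (Nat.beq W 0) true
      (and3 (Nat.ble (Nat.succ (Nat.mod W 16)) m)
        (Nat.ble (Nat.succ (Nat.mod (Nat.shiftRight W 4) 16)) m) (ih (Nat.shiftRight W 10))))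

/-- the library entry `E` (number of vertices and chords) is forbidden -/
noncomputable def libE (C : IC) (E s : Nat) : Bool :=
  and3 (Nat.ble (Nat.mod E 16) 10) (okW (Nat.mod E 16) 20 (Nat.shiftRight E 4))
    (fark C (Nat.mod E 16) (pat 20 (Nat.shiftRight E 4) 0) 100 s 0 0 0)

/-- entries `i, i + 1, ...` of the library -/
noncomputable def libOK (C : IC) (Lib : List Nat) (S : List Nat) : Nat → Bool :=
  List.rec (motive := fun _ => Nat → Bool) (fun _ => true)
    (fun s _ ih i => sel (libE C (get Lib i) s) (ih (Nat.succ i)) false) S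

end RTwo
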