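import Pool.Agent.Helper45.RTD.PJ
import Pool.Agent.Helper45.RTD.AJ
import Pool.Agent.Helper45.RTD.BJ
import Pool.Agent.Helper45.RTD.CJ
import Pool.Agent.Helper45.RTD.DJ
import Pool.Agent.Helper45.RTD.EJ
import Pool.Agent.Helper45.RTD.FJ

/-!
The least `n` with `r₂(n) > n` is `11` (MP_47dd75_co).
-/

set_option autoImplicit false

namespace RTwo

theorem dataOK : Glue.DataOK :=
  ⟨DP.lib, DP.T3, DP.T4, DP.T5, DP.T6, DP.T7, DP.L3, DP.L4, DP.L5, DP.L6, DP.L7, DP.pdata,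
    ⟨_, _, _, _, _, _, _, DA.idata⟩, ⟨_, _, _, _, _, _, _, DB.idata⟩,
    ⟨_, _, _, _, _, _, _, DC.idata⟩, ⟨_, _, _, _, _, _, _, DD.idata⟩,
    ⟨_, _, _, _, _, _, _, DE.idata⟩, ⟨_, _, _, _, _, _, _, DF.idata⟩⟩

open Pool.Agent.Helper14.Poly in
theorem least_eleven : IsLeast {n : ℕ | n < r₂ n} 11 := Glue.final dataOK

open Pool.Agent.Helper14.Poly in
theorem r2_le_ten (n : ℕ) (hn : n ≤ 10) : r₂ n ≤ n := Glue.r2_le dataOK n hn

end RTwo
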