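import Pool.Agent.Helper45.RT.Chain
import Pool.Agent.Helper14.RTA.Glue

/-!
From the pieces of the data to the facts used in `Pool.Agent.Helper14.RTA.Glue`.
-/

set_option autoImplicit false

namespace RTwo

namespace Join

open Glue

theorem libOK_of {K : IC} {Lib : List ℕ} {N : ℕ} (hc : cov Lib N = true) (hL : LibTo K Lib N) :
    LibOK K Lib := by
  intro a ha
  by_cases h : a < N
  · exact hL a h
  · exact absurd (cov' Lib N hc a (by omega)) ha

theorem chkOK_of {k t N : ℕ} {T P L : List ℕ} (hc : cov P N = true) (hS : StepTo k t T L P N) :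
    ChkOK k t T P L := by
  intro idx hidx
  by_cases h : idx < N
  · exact hS idx h
  · exact absurd (cov' P N hc idx (by omega)) hidx

theorem libTo {K : IC} {Lib S : List ℕ} {i l m : ℕ} (hi : LibTo K Lib i)
    (hS : libOK K Lib S i = true) (hl : S.length = l) (hm : i + l = m) : LibTo K Lib m :=
  hm ▸ libTo_add st_LIB hi hS hl

theorem stepTo {k t : ℕ} {T L P S : List ℕ} {i l m : ℕ} (hi : StepTo k t T L P i)
    (hS : chk k t T L P S i = true) (hl : S.length = l) (hm : i + l = m) : StepTo k t T L P m :=
  hm ▸ stepTo_add st_CHK hi hS hl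

theorem filtTo {K : IC} {Lib T L P : List ℕ} {i l m ctr s : ℕ} (hK : SmallC K) (hL : LibOK K Lib)
    (hT : TabOK 7 Lib T) (hi : FiltTo (IOK K) L P i) (hS : filt T L P l i ctr s = true)
    (hm : i + l = m) : FiltTo (IOK K) L P m :=
  hm ▸ filtTo_add filt' (badT hK (by norm_num) (by norm_num) hL hT) hi hS

theorem filtFact {K : IC} {L P : List ℕ} {N : ℕ} (hc : cov P N = true)
    (h : FiltTo (IOK K) L P N) : FiltFact K P L := ⟨N, cov' P N hc, h⟩

theorem small0 : SmallC K0 := by
  unfold SmallC K0
  norm_num

theorem small1 : SmallC K1 := by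
  unfold SmallC K1
  norm_num

theorem small2 : SmallC K2 := by
  unfold SmallC K2
  norm_num

theorem small3 : SmallC K3 := by
  unfold SmallC K3
  norm_num

theorem small4 : SmallC K4 := by
  unfold SmallC K4
  norm_num

theorem small5 : SmallC K5 := by
  unfold SmallC K5
  norm_num

end Join

end RTwo
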