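import Mathlib
import Pool.Agent.Helper45.RT.Core

/-!
Meaning of the patterns of `Core`.
-/

set_option autoImplicit false

namespace RTwo

open Finset

/-- twice the signed area of the triangle `u v w` -/
def cr (u v w : ℂ) : ℝ := (v.re - u.re) * (w.im - u.im) - (v.im - u.im) * (w.re - u.re)

/-- `p 0, ..., p (n - 1)` are the vertices of a convex polygon, counterclockwise -/
def CPos (n : ℕ) (p : ℕ → ℂ) : Prop :=
  ∀ i j k, i < j → j < k → k < n → 0 < cr (p i) (p j) (p k)

/-- a colour (two bits) is respected by the distance `d` -/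
def Okd (c : ℕ) (a b d : ℝ) : Prop := (c.testBit 0 = true → d = a) ∧ (c.testBit 1 = true → d = b)

/-- colourings of pairs -/
abbrev Col := ℕ → ℕ → ℕ

/-- symmetric colouring of the pairs from `0, ..., n - 1` with colours `0, 1, 2` -/
def SymC (n : ℕ) (c : Col) : Prop :=
  ∀ i j, i < n → j < n → c i j = c j i ∧ c i i = 0 ∧ c i j ≤ 2

/-- there is a convex polygon with `n` vertices and distances `a < b` (satisfying `I a b`) which
respects the colours -/
def Rl (I : ℝ → ℝ → Prop) (n : ℕ) (c : Col) : Prop :=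
  ∃ (p : ℕ → ℂ) (a b : ℝ), CPos n p ∧ 0 < a ∧ a < b ∧ I a b ∧
    ∀ i j, i < n → j < n → Okd (c i j) a b (dist (p i) (p j))

/-- colour of the chord `i j` in the pattern `X` -/
def dgt (X : ℕ) : Col := fun i j => X / 2 ^ (20 * i + 2 * j) % 4

/-- code of a colouring -/
def code (n : ℕ) (c : Col) : ℕ := ∑ i ∈ range n, ∑ j ∈ range n, c i j * 2 ^ (20 * i + 2 * j)

/-- no convex polygon has this pattern -/
def Bad (I : ℝ → ℝ → Prop) (n M : ℕ) : Prop := ¬ Rl I n (dgt M)

/-- numbers of chords at a vertex -/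
def nA (n : ℕ) (c : Col) (v : ℕ) : ℕ := ((range n).filter (fun w => c v w = 1)).card

def nB (n : ℕ) (c : Col) (v : ℕ) : ℕ := ((range n).filter (fun w => c v w = 2)).card

def dgr (n : ℕ) (c : Col) (v : ℕ) : ℕ := nA n c v + nB n c v

/-- twice the numbers of chords -/
def totA (n : ℕ) (c : Col) : ℕ := ∑ v ∈ range n, nA n c v

def totB (n : ℕ) (c : Col) : ℕ := ∑ v ∈ range n, nB n c v

def tot (n : ℕ) (c : Col) : ℕ := totA n c + totB n c

/-- the dihedral permutation used by `dih` -/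
def dsg (n r f i : ℕ) : ℕ := if f = 0 then (i + r) % n else n - 1 - (i + r) % n

/-- the colouring permuted -/
def dcol (n r f : ℕ) (c : Col) : Col := fun i j => c (dsg n r f i) (dsg n r f j)

/-- some dihedral image of `c` is in the list `L` -/
def InL (n : ℕ) (L : List ℕ) (c : Col) : Prop :=
  ∃ idx r f, r < n ∧ get L idx = code n (dcol n r f c)

/-- the extensions of the pattern `X` on `k` vertices by one vertex are in the list `L` -/
def StepOK (I : ℝ → ℝ → Prop) (k t : ℕ) (L : List ℕ) (X : ℕ) : Prop :=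
  ∀ (c d : Col) (g : ℕ), SymC (k + 1) c → Rl I (k + 1) c → SymC k d → X = code k d → g < k →
    (∀ i j, i < k → j < k → c i j = d ((i + g) % k) ((j + g) % k)) →
    2 * t ≤ tot (k + 1) c → totA (k + 1) c ≤ 22 → totB (k + 1) c ≤ 22 →
    (∀ v, v < k → dgr (k + 1) c k ≤ dgr (k + 1) c v) → InL (k + 1) L c

/-- the meaning of the constants -/
structure IOK (C : IC) (a b : ℝ) : Prop where
  D_pos : 0 < C.D
  bl_lt : (C.bl : ℝ) / C.D * Real.pi < 2 * Real.arcsin (a / (2 * b))
  lt_bh : 2 * Real.arcsin (a / (2 * b)) < (C.bh : ℝ) / C.D * Real.pi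
  al_lt : (C.al : ℝ) / C.D * Real.pi < 2 * Real.arcsin (b / (2 * a))
  lt_ah : C.ua = true → 2 * Real.arcsin (b / (2 * a)) < (C.ah : ℝ) / C.D * Real.pi
  na_ok : C.na = true → 2 * a ≤ b
  kd_pos : C.uk = true → 0 < C.kd ∧ C.kn ≤ C.kd
  k_ok : C.uk = true → a * C.kd ≤ C.kn * b
  ga_ok : C.uk = true → Real.arcsin (a / b) < (C.ga : ℝ) / C.D * Real.pi
  q_ok : C.uk = true → 0 < C.qd ∧ (C.qn : ℝ) / C.qd < 2 / Real.pi * Real.arcsin (a / b)

end RTwo
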