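import Pool.Agent.Helper45.RT.Sem

/-!
Statements of the rows of project RTwo (MP_47dd75_co).
-/

set_option autoImplicit false

namespace RTwo

open Finset

/-! ### Bits -/

/-- row BITS -/
def ST_BITS : Prop :=
  ∀ (n : ℕ) (c : Col), n ≤ 10 → (∀ i j, i < n → j < n → c i j ≤ 3) →
    (∀ i j e, i < n → j < n → e < 2 →
      (code n c).testBit (20 * i + 2 * j + e) = (c i j).testBit e) ∧
    (∀ i j e, i < n → j < 10 → ¬ j < n → e < 2 → (code n c).testBit (20 * i + 2 * j + e) = false) ∧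
    (∀ t, 20 * n ≤ t → (code n c).testBit t = false) ∧
    (∀ i j, i < n → j < n → dgt (code n c) i j = c i j) ∧
    (∀ (X i j e : ℕ), e < 2 → (dgt X i j).testBit e = X.testBit (20 * i + 2 * j + e))

/-- row ROT -/
def ST_ROT : Prop :=
  ∀ (k r : ℕ) (c : Col), k ≤ 10 → r < k → (∀ i j, i < k → j < k → c i j ≤ 3) →
    rotr k r (code k c) = code k (fun i j => c ((i + r) % k) ((j + r) % k))

/-- row REV -/
def ST_REV : Prop :=
  ∀ (n : ℕ) (c : Col), 0 < n → n ≤ 10 → (∀ i j, i < n → j < n → c i j ≤ 3) →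
    revn n (code n c) = code n (fun i j => c (n - 1 - i) (n - 1 - j))

/-- the pattern `cur` of the decision tree: base part, row `k` for the decided vertices -/
def Inv (k : ℕ) (c : Col) (cur und : ℕ) : Prop :=
  (∀ i j e, i < k → j < k → e < 2 → cur.testBit (20 * i + 2 * j + e) = (c i j).testBit e) ∧
  (∀ j e, j < k → e < 2 → cur.testBit (20 * k + 2 * j + e) =
    (!(und.testBit j) && (c k j).testBit e)) ∧
  (∀ i j e, i ≤ k → j < 10 → k ≤ j → e < 2 → cur.testBit (20 * i + 2 * j + e) = false) ∧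
  (∀ t, 20 * (k + 1) ≤ t → cur.testBit t = false)

/-- row SYMK -/
def ST_SYMK : Prop :=
  ∀ (k : ℕ) (c : Col) (cur und : ℕ), k ≤ 9 → SymC (k + 1) c → Inv k c cur und →
    (∀ j, j < k → und.testBit j = false) → symk k cur = code (k + 1) c

/-- row INV -/
def ST_INV : Prop :=
  ∀ (k : ℕ) (c : Col) (cur und j : ℕ), k ≤ 9 → SymC (k + 1) c → Inv k c cur und → j < k →
    und.testBit j = true → und < 2 ^ k →
    (c k j = 0 → Inv k c cur (und - 2 ^ j)) ∧
    (c k j = 1 → Inv k c (cur + Nat.shiftLeft 1 (20 * k + 2 * j)) (und - 2 ^ j)) ∧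
    (c k j = 2 → Inv k c (cur + Nat.shiftLeft 2 (20 * k + 2 * j)) (und - 2 ^ j)) ∧
    und - 2 ^ j < 2 ^ k ∧
    (∀ i, (und - 2 ^ j).testBit i = (und.testBit i && decide (i ≠ j)))

/-- row DEG -/
def ST_DEG : Prop :=
  ∀ (k : ℕ) (c : Col), 0 < k → k ≤ 10 → SymC k c →
    (∀ v, v < k → rowA (code k c) v = nA k c v ∧ rowB (code k c) v = nB k c v) ∧
    sumA (code k c) k = totA k c ∧ sumB (code k c) k = totB k c ∧
    (∀ v, v < k → degs (code k c) k / 16 ^ v % 16 = dgr k c v) ∧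
    degs (code k c) k < 16 ^ k ∧
    (∃ v, v < k ∧ minD (code k c) k = dgr k c v) ∧ (∀ v, v < k → minD (code k c) k ≤ dgr k c v)

/-- row ROTD -/
def ST_ROTD : Prop :=
  ∀ (k D : ℕ), 0 < k → k ≤ 10 → D < 16 ^ k →
    rotD k D < 16 ^ k ∧ ∀ v, v < k → rotD k D / 16 ^ v % 16 = D / 16 ^ ((v + 1) % k) % 16

/-- row GET -/
def ST_GET : Prop :=
  (∀ i, get [] i = 0) ∧
  (∀ (x : ℕ) (L : List ℕ) (i : ℕ), i < 1024 → get (x :: L) i = x / 2 ^ (200 * i) % 2 ^ 200) ∧
  (∀ (x : ℕ) (L : List ℕ) (i : ℕ), 1024 ≤ i → get (x :: L) i = get L (i - 1024))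

/-! ### Dihedral group -/

/-- row DSG: the permutations `dsg n r f` form a group of bijections -/
def ST_DSG : Prop :=
  ∀ n, 0 < n →
    (∀ r f i, i < n → dsg n r f i < n) ∧
    (∀ r f i j, i < n → j < n → dsg n r f i = dsg n r f j → i = j) ∧
    (∀ r f r' f', ∃ r'' f'', r'' < n ∧ ∀ i, i < n → dsg n r f (dsg n r' f' i) = dsg n r'' f'' i) ∧
    (∀ r f, ∃ r' f', r' < n ∧ ∀ i, i < n → dsg n r f (dsg n r' f' i) = i ∧
      dsg n r' f' (dsg n r f i) = i)

/-- row DCOL: invariance of the numbers -/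
def ST_DCOL : Prop :=
  ∀ (n r f : ℕ) (c : Col), 0 < n → SymC n c →
    SymC n (dcol n r f c) ∧ totA n (dcol n r f c) = totA n c ∧ totB n (dcol n r f c) = totB n c ∧
    (∀ v, v < n → dgr n (dcol n r f c) v = dgr n c (dsg n r f v))

/-- row RLD: invariance of realizability -/
def ST_RLD : Prop :=
  ∀ (I : ℝ → ℝ → Prop) (n r f : ℕ) (c : Col), 0 < n → Rl I n c → Rl I n (dcol n r f c)

/-- row RLR: restriction and weakening -/
def ST_RLR : Prop :=
  ∀ (I J : ℝ → ℝ → Prop) (m n : ℕ) (c d : Col) (g : ℕ → ℕ), Rl I n c →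
    (∀ a b, I a b → J a b) → (∀ i j, i < j → j < m → g i < g j) → (∀ i, i < m → g i < n) →
    (∀ i j e, i < m → j < m → e < 2 → (d i j).testBit e = true →
      (c (g i) (g j)).testBit e = true) → Rl J m d

/-- row DIH -/
def ST_DIH : Prop :=
  ∀ (n r f : ℕ) (c : Col), 0 < n → n ≤ 10 → r < n → (∀ i j, i < n → j < n → c i j ≤ 3) →
    dih n r f (code n c) = code n (dcol n r f c)

/-- row TAU: the base part after a reflection -/
def ST_TAU : Prop :=
  ∀ (k r f : ℕ) (c : Col), 0 < k → r < k → SymC (k + 1) c →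
    ∃ (c' : Col) (g : ℕ), SymC (k + 1) c' ∧ g < k ∧
      (∀ i j, i < k → j < k → c' i j = (dcol k r f c) ((i + g) % k) ((j + g) % k)) ∧
      ((∀ i j, i ≤ k → j ≤ k → c' i j = c i j) ∨
        (∀ i j, i ≤ k → j ≤ k → c' i j = dcol (k + 1) 1 1 c i j))

/-! ### The decision trees -/

/-- row GO1 -/
def ST_GO1 : Prop :=
  ∀ (k bq D : ℕ) (T L : List ℕ) (fuel cur und ra rb u mz b s : ℕ) (K : ℕ → Bool),
    go k bq D T L fuel cur und ra rb u mz b s K = true → ∃ s', K s' = true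

/-- numbers of decided vertices joined to the new vertex `k` -/
def decN (k : ℕ) (c : Col) (und x : ℕ) : ℕ :=
  ((range k).filter (fun j => und.testBit j = false ∧ c k j = x)).card

def undN (k und : ℕ) : ℕ := ((range k).filter (fun j => und.testBit j = true)).card

/-- row GO2 -/
def ST_GO2 : Prop :=
  ∀ (I : ℝ → ℝ → Prop) (k t bq D : ℕ) (T L : List ℕ) (c : Col), 2 ≤ k → k ≤ 9 →
    SymC (k + 1) c → Rl I (k + 1) c → (∀ m, get T m ≠ 0 → Bad I (k + 1) (get T m)) →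
    (∀ v, v < k → D / 16 ^ v % 16 = dgr k c v) →
    2 * t ≤ tot (k + 1) c → totA (k + 1) c ≤ 22 → totB (k + 1) c ≤ 22 →
    (∀ v, v < k → dgr (k + 1) c k ≤ dgr (k + 1) c v) →
    bq = t - tot k c / 2 →
    ∀ (fuel cur und ra rb u mz b s : ℕ) (K : ℕ → Bool), Inv k c cur und → und < 2 ^ k →
      u = undN k und → ra = 11 - totA k c / 2 - decN k c und 1 →
      rb = 11 - totB k c / 2 - decN k c und 2 → b = decN k c und 1 + decN k c und 2 →
      dgr (k + 1) c k ≤ mz → bq ≤ b + u → bq ≤ mz → b ≤ mz →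
      go k bq D T L fuel cur und ra rb u mz b s K = true → InL (k + 1) L c

/-- row BASE: the check of one base pattern (all rotations) -/
def ST_BASE : Prop :=
  ∀ (I : ℝ → ℝ → Prop) (k t : ℕ) (T L : List ℕ) (X s : ℕ), 2 ≤ k → k ≤ 9 →
    (∀ m, get T m ≠ 0 → Bad I (k + 1) (get T m)) →
    chkBase k t T L X s = true → StepOK I k t L X

/-- row CHK -/
def ST_CHK : Prop :=
  ∀ (k t : ℕ) (T L P S : List ℕ) (i : ℕ), chk k t T L P S i = true →
    ∀ j, j < S.length → ∃ s, chkBase k t T L (get P (i + j)) s = true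

/-- row FILT -/
def ST_FILT : Prop :=
  ∀ (I : ℝ → ℝ → Prop) (T L P : List ℕ) (N : ℕ),
    (∀ m, get T m ≠ 0 → Bad I 7 (get T m)) →
    ∀ (i ctr s : ℕ), filt T L P N i ctr s = true →
    ∀ j, j < N → (∀ c, SymC 7 c → get P (i + j) = code 7 c → ¬ Rl I 7 c) ∨
      ∃ idx, get L idx = get P (i + j)

/-! ### The table and the library -/

/-- the list of chords `W` (ten bits each) is respected by `p a b` -/
def chords (m : ℕ) (p : ℕ → ℂ) (a b : ℝ) : ℕ → ℕ → Prop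
  | 0, _ => True
  | f + 1, W => W = 0 ∨ ((W % 16 < m → W / 16 % 16 < m →
      Okd (W / 256 % 4) a b (dist (p (W % 16)) (p (W / 16 % 16)))) ∧ chords m p a b f (W / 1024))

/-- the library entry `E` is forbidden -/
def BadE (I : ℝ → ℝ → Prop) (E : ℕ) : Prop :=
  ¬ ∃ (p : ℕ → ℂ) (a b : ℝ), CPos (E % 16) p ∧ 0 < a ∧ a < b ∧ I a b ∧
    chords (E % 16) p a b 20 (E / 16)

/-- row ENT: one entry of the table -/
def ST_ENT : Prop :=
  ∀ (I : ℝ → ℝ → Prop) (n : ℕ) (Lib : List ℕ) (M s : ℕ), 2 ≤ n → n ≤ 10 →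
    (∀ a, get Lib a ≠ 0 → BadE I (get Lib a)) → entOK n Lib M s = true → Bad I n M

/-- row TAB: a chunk of the table -/
def ST_TAB : Prop :=
  ∀ (n c : ℕ) (Lib : List ℕ) (f i s : ℕ), tabOK n c Lib f i s = true →
    ∀ j, j < f → c / 2 ^ (200 * (i + j)) % 2 ^ 200 ≠ 0 →
      ∃ s', entOK n Lib (c / 2 ^ (200 * (i + j)) % 2 ^ 200) s' = true

/-- row TABL: the whole table -/
def ST_TABL : Prop :=
  ∀ (I : ℝ → ℝ → Prop) (n : ℕ) (Lib T : List ℕ), 2 ≤ n → n ≤ 10 →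
    (∀ a, get Lib a ≠ 0 → BadE I (get Lib a)) →
    (∀ c ∈ T, ∃ s, tabOK n c Lib 1024 0 s = true) →
    ∀ m, get T m ≠ 0 → Bad I n (get T m)

end RTwo
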