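import Pool.Agent.Helper45.RT.Stmts
import Pool.Agent.Helper14.Poly.Defs

/-!
Statements of the rows of project RTwo (MP_47dd75_co), second part: geometry and certificates.
-/

set_option autoImplicit false

namespace RTwo

open Finset

/-! ### Geometry of three points; angles in units of `π` -/

/-- the angle at `x` between `y` and `z`, divided by `π` -/
noncomputable def an (x y z : ℂ) : ℝ := EuclideanGeometry.angle y x z / Real.pi

/-- row ANG: basic facts for a positively oriented (or non collinear) triangle -/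
def ST_ANG : Prop :=
  ∀ x y z : ℂ, cr x y z ≠ 0 →
    0 < an x y z ∧ an x y z < 1 ∧ an x y z = an x z y ∧ an x y z + an y z x + an z x y = 1 ∧
    x ≠ y ∧ x ≠ z ∧ y ≠ z

/-- row ADD: the diagonal `x z` of a convex quadrilateral `x y z w` splits the angle at `x` -/
def ST_ADD : Prop :=
  ∀ x y z w : ℂ, 0 < cr x y z → 0 < cr x z w → 0 < cr x y w → 0 < cr y z w →
    an x y w = an x y z + an x z w

/-- row PHI: direction angles -/
def ST_PHI : Prop :=
  ∀ (n : ℕ) (p : ℕ → ℂ), CPos n p → ∃ φ : ℕ → ℕ → ℝ, ∀ i j k, i < j → j < k → k < n →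
    an (p i) (p j) (p k) = φ i k - φ i j ∧
    an (p j) (p i) (p k) = 1 + φ i j - φ j k ∧
    an (p k) (p i) (p j) = φ j k - φ i k

/-- row ISO: isosceles triangles and order of sides and angles -/
def ST_ISO : Prop :=
  ∀ x y z : ℂ, cr x y z ≠ 0 →
    (dist y z = dist x z → an x y z = an y x z) ∧
    (dist y z < dist x z → an x y z < an y x z)

/-- row APEX: apex of an isosceles triangle -/
def ST_APEX : Prop :=
  ∀ (x y z : ℂ) (s t : ℝ), cr x y z ≠ 0 → dist x y = s → dist x z = s → dist y z = t →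
    an x y z * Real.pi = 2 * Real.arcsin (t / (2 * s)) ∧ t < 2 * s

/-- row HINGE: the included angle grows with the third side -/
def ST_HINGE : Prop :=
  ∀ x y z x' y' z' : ℂ, cr x y z ≠ 0 → cr x' y' z' ≠ 0 → dist x y = dist x' y' →
    dist x z = dist x' z' →
    (dist y z = dist y' z' → an x y z = an x' y' z') ∧
    (dist y z < dist y' z' → an x y z < an x' y' z')

/-- row SINL: law of sines in the form needed: the side opposite to `x` has length `a`, the side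
opposite to `y` length `b > a`, `a ≤ κ b`, `κ ≤ 1` -/
def ST_SINL : Prop :=
  ∀ (x y z : ℂ) (a b κ : ℝ), cr x y z ≠ 0 → 0 < a → a < b → dist y z = a → dist x z = b →
    a ≤ κ * b → κ ≤ 1 →
    an x y z < κ * an y x z ∧ an x y z < κ * (1 - an y x z) ∧
    an x y z * Real.pi ≤ Real.arcsin (a / b)

/-- row BASE2: two isosceles triangles over the same base `y z`, apex `x` with sides `a`, apex
`x'` with sides `b > a` -/
def ST_BASE2 : Prop :=
  ∀ (x x' y z : ℂ) (a b κ q : ℝ), cr x y z ≠ 0 → cr x' y z ≠ 0 → 0 < a → a < b →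
    dist x y = a → dist x z = a → dist x' y = b → dist x' z = b → a ≤ κ * b → κ ≤ 1 →
    q < 2 / Real.pi * Real.arcsin (a / b) →
    an x' y z < κ * an x y z ∧ q * an x y z < an x' y z ∧
    an x' y z * Real.pi ≤ 2 * Real.arcsin (a / b)

/-! ### Farkas certificates -/

/-- number of fields -/
def NF : ℕ := 103

/-- a number packed from 96 bit fields -/
def pack (f : ℕ → ℕ) : ℕ := ∑ t ∈ range NF, f t * 2 ^ (96 * t)

/-- row PACK: uniqueness of the fields -/
def ST_PACK : Prop :=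
  ∀ (f g : ℕ → ℕ) (e : ℕ), (∀ t, t < NF → f t < 2 ^ 95) → (∀ t, t < NF → g t < 2 ^ 95) →
    e < 2 ^ 95 → pack f + e = pack g → f 0 + e = g 0 ∧ ∀ t, 0 < t → t < NF → f t = g t

/-- values of the fields: constant `1 / D`, `α`, `β`, directions -/
noncomputable def val (D : ℕ) (α β : ℝ) (φ : ℕ → ℕ → ℝ) (t : ℕ) : ℝ :=
  if t = 0 then 1 / D else if t = 1 then α else if t = 2 then β else φ ((t - 3) / 10) ((t - 3) % 10)

/-- the number `X` is packed from small fields with value `x` -/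
def Pk (D : ℕ) (α β : ℝ) (φ : ℕ → ℕ → ℝ) (B X : ℕ) (x : ℝ) : Prop :=
  ∃ f : ℕ → ℕ, (∀ t, t < NF → f t ≤ B) ∧ X = pack f ∧
    x = ∑ t ∈ range NF, (f t : ℝ) * val D α β φ t

/-- row PK: arithmetic of packed numbers -/
def ST_PK : Prop :=
  ∀ (D : ℕ) (α β : ℝ) (φ : ℕ → ℕ → ℝ),
    (∀ B X x B' X' x', Pk D α β φ B X x → Pk D α β φ B' X' x' →
      Pk D α β φ (B + B') (X + X') (x + x')) ∧
    (∀ B X x l, Pk D α β φ B X x → Pk D α β φ (l * B) (l * X) (l * x)) ∧
    (∀ B X x B', Pk D α β φ B X x → B ≤ B' → Pk D α β φ B' X x) ∧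
    (∀ l : ℕ, Pk D α β φ l l (l / D)) ∧
    (Pk D α β φ 1 79228162514264337593543950336 α) ∧
    (Pk D α β φ 1 6277101735386680763835789423207666416102355444464034512896 β) ∧
    (∀ i j, i < 10 → j < 10 → Pk D α β φ 1 (ph i j) (φ i j))

/-- row PKC: conclusion from packed sums -/
def ST_PKC : Prop :=
  ∀ (D : ℕ) (α β : ℝ) (φ : ℕ → ℕ → ℝ) (B P N : ℕ) (x y : ℝ), 0 < D → B < 2 ^ 95 →
    Pk D α β φ B P x → Pk D α β φ B N y → P ≤ N → N - P < 2 ^ 72 →
    y = x + ((N - P : ℕ) : ℝ) / D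

/-- the constants are small -/
def SmallC (C : IC) : Prop :=
  C.D ≤ 3600 ∧ C.al ≤ 3600 ∧ C.ah ≤ 3600 ∧ C.bl ≤ 3600 ∧ C.bh ≤ 3600 ∧ C.kn ≤ 100 ∧
    C.kd ≤ 100 ∧ C.qn ≤ 100 ∧ C.qd ≤ 100 ∧ C.ga ≤ 3600

/-- everything known about a configuration -/
structure Cfg (C : IC) (m : ℕ) (F : ℕ) (p : ℕ → ℂ) (a b α β : ℝ) (φ : ℕ → ℕ → ℝ) : Prop where
  m_le : m ≤ 10
  pos : CPos m p
  ha : 0 < a
  hab : a < b
  ok : IOK C a b
  col : ∀ i j, i < m → j < m → Okd (col F i j) a b (dist (p i) (p j))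
  alpha : α * Real.pi = 2 * Real.arcsin (b / (2 * a))
  beta : β * Real.pi = 2 * Real.arcsin (a / (2 * b))
  phi : ∀ i j k, i < j → j < k → k < m →
    an (p i) (p j) (p k) = φ i k - φ i j ∧
    an (p j) (p i) (p k) = 1 + φ i j - φ j k ∧
    an (p k) (p i) (p j) = φ j k - φ i k

/-- row ROW: every row of a certificate is a true inequality `y ≤ x` (strict if `z = 1`) -/
def ST_ROW : Prop :=
  ∀ (C : IC) (m F : ℕ) (p : ℕ → ℂ) (a b α β : ℝ) (φ : ℕ → ℕ → ℝ), Cfg C m F p a b α β φ →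
    SmallC C →
    ∀ (kd i j k p' i' j' k' q e e' : ℕ) (K : ℕ → ℕ → ℕ → Bool),
      i < j → j < k → k < m → i' < j' → j' < k' → k' < m → p' < 4 → q < 4 → e < 2 → e' < 2 →
      row C F kd i j k p' i' j' k' q e e' K = true →
      ∃ X Y z x y, K X Y z = true ∧ Pk C.D α β φ 1000000 X x ∧ Pk C.D α β φ 1000000 Y y ∧
        y ≤ x ∧ z ≤ 1 ∧ (z = 1 → y < x)

/-- row FARK -/
def ST_FARK : Prop :=
  ∀ (C : IC) (m F : ℕ) (p : ℕ → ℂ) (a b α β : ℝ) (φ : ℕ → ℕ → ℝ), Cfg C m F p a b α β φ →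
    SmallC C →
    ∀ s, fark C m F 100 s 0 0 0 = true → False

/-- row PAT: the pattern of a list of chords -/
def ST_PAT : Prop :=
  ∀ (m W : ℕ) (p : ℕ → ℂ) (a b : ℝ), m ≤ 10 → okW m 20 W = true → chords m p a b 20 W →
    ∀ i j, i < m → j < m → Okd (RTwo.col (pat 20 W 0) i j) a b (dist (p i) (p j))

/-- row LIBE -/
def ST_LIBE : Prop :=
  ∀ (C : IC) (E s : ℕ), SmallC C → libE C E s = true → BadE (IOK C) E

/-- row LIB: a list of certificates -/
def ST_LIB : Prop :=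
  ∀ (C : IC) (Lib S : List ℕ) (i : ℕ), libOK C Lib S i = true →
    ∀ j, j < S.length → ∃ s, libE C (get Lib (i + j)) s = true

/-! ### Counting -/

/-- a colouring satisfies the caps -/
def Cap (n : ℕ) (c : Col) : Prop := totA n c ≤ 22 ∧ totB n c ≤ 22

/-- row DEL: deleting the last vertex -/
def ST_DEL : Prop :=
  ∀ (k : ℕ) (c : Col), SymC (k + 1) c →
    SymC k c ∧ tot (k + 1) c = tot k c + 2 * dgr (k + 1) c k ∧
    totA k c ≤ totA (k + 1) c ∧ totB k c ≤ totB (k + 1) c ∧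
    (∀ v, v < k → dgr (k + 1) c v ≤ dgr k c v + 1) ∧ (∀ v, v < k → dgr k c v ≤ dgr (k + 1) c v)

/-- row MIN: a vertex of minimal degree can be made the last one -/
def ST_MIN : Prop :=
  ∀ (k : ℕ) (c : Col), SymC (k + 1) c →
    ∃ r, r < k + 1 ∧ (∀ v, v ≤ k → dgr (k + 1) (dcol (k + 1) r 0 c) k ≤
      dgr (k + 1) (dcol (k + 1) r 0 c) v) ∧
      (k + 1) * dgr (k + 1) (dcol (k + 1) r 0 c) k ≤ tot (k + 1) c

/-- row TEN: for ten vertices and 22 chords there is a vertex of minimal degree, after whose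
deletion there are at least 18 chords, and at least 15 after the deletion of another vertex -/
def ST_TEN : Prop :=
  ∀ c : Col, SymC 10 c → tot 10 c = 44 →
    ∃ r, r < 10 ∧ (∀ v, v < 10 → dgr 10 (dcol 10 r 0 c) 9 ≤ dgr 10 (dcol 10 r 0 c) v) ∧
      36 ≤ tot 9 (dcol 10 r 0 c) ∧
      ∃ v, v < 9 ∧ 30 + 2 * dgr 9 (dcol 10 r 0 c) v ≤ tot 9 (dcol 10 r 0 c)

/-! ### From convex polygons to colourings -/

open Pool.Agent.Helper14.Poly in
/-- row ORD: the vertices of a convex polygon in their order -/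
def ST_ORD : Prop :=
  ∀ (n : ℕ) (C : Finset Plane), IsConvexPolygon n C →
    ∃ e : ℕ → Plane, (∀ i, i < n → e i ∈ C) ∧ (∀ i j, i < n → j < n → e i = e j → i = j) ∧
      CPos n (fun i => ⟨e i 0, e i 1⟩)

open Pool.Agent.Helper14.Poly in
/-- row SEL: a convex polygon with two distances of multiplicity at least `m` gives a colouring -/
def ST_SEL : Prop :=
  ∀ (n m : ℕ) (C : Finset Plane) (d₁ d₂ : ℝ), 0 < m → IsConvexPolygon n C → d₁ < d₂ →
    m ≤ mult C d₁ → m ≤ mult C d₂ →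
    ∃ (p : ℕ → ℂ) (c : Col), CPos n p ∧ 0 < d₁ ∧ SymC n c ∧ totA n c = 2 * m ∧
      totB n c = 2 * m ∧ ∀ i j, i < n → j < n → Okd (c i j) d₁ d₂ (dist (p i) (p j))

end RTwo
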