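import Pool.Agent.Helper45.RT.Stmts2

/-!
Statements of the rows of project RTwo (MP_47dd75_co), third part: constants and chain.
-/

set_option autoImplicit false

namespace RTwo

open Finset

/-- constants without any restriction of `a / b` -/
def KP : IC := ⟨3600, 1200, 3600, 0, 1200, 1, 1, 0, 1, 1800, false, false, false⟩

/-- `a / b ≤ 1 / 2` -/
def K0 : IC := ⟨3600, 1200, 3600, 0, 581, 1, 2, 0, 1, 601, true, false, true⟩

/-- `1 / 2 < a / b ≤ 18 / 35` -/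
def K1 : IC := ⟨3600, 3056, 3600, 577, 598, 18, 35, 1, 3, 621, false, true, true⟩

/-- `18 / 35 < a / b ≤ 11 / 21` -/
def K2 : IC := ⟨3600, 2904, 3061, 594, 609, 11, 21, 1, 3, 634, false, true, true⟩

/-- `11 / 21 < a / b ≤ 13 / 20` -/
def K3 : IC := ⟨3600, 2009, 2909, 605, 761, 13, 20, 7, 20, 813, false, true, true⟩

/-- `13 / 20 < a / b ≤ 18 / 25` -/
def K4 : IC := ⟨3600, 1757, 2014, 756, 846, 18, 25, 11, 25, 923, false, true, true⟩

/-- `18 / 25 < a / b < 1` -/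
def K5 : IC := ⟨3600, 1200, 1762, 843, 1200, 1, 1, 1, 2, 1800, false, true, true⟩

/-- row IVP -/
def ST_IVP : Prop := ∀ a b : ℝ, 0 < a → a < b → IOK KP a b

/-- row IV0 -/
def ST_IV0 : Prop := ∀ a b : ℝ, 0 < a → a < b → 2 * a ≤ b → IOK K0 a b

/-- row IV1 -/
def ST_IV1 : Prop := ∀ a b : ℝ, 0 < a → a < b → b < 2 * a → 35 * a ≤ 18 * b → IOK K1 a b

/-- row IV2 -/
def ST_IV2 : Prop := ∀ a b : ℝ, 0 < a → a < b → 18 * b < 35 * a → 21 * a ≤ 11 * b → IOK K2 a b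

/-- row IV3 -/
def ST_IV3 : Prop := ∀ a b : ℝ, 0 < a → a < b → 11 * b < 21 * a → 20 * a ≤ 13 * b → IOK K3 a b

/-- row IV4 -/
def ST_IV4 : Prop := ∀ a b : ℝ, 0 < a → a < b → 13 * b < 20 * a → 25 * a ≤ 18 * b → IOK K4 a b

/-- row IV5 -/
def ST_IV5 : Prop := ∀ a b : ℝ, 0 < a → a < b → 18 * b < 25 * a → IOK K5 a b

/-- row COV -/
def ST_COV : Prop := ∀ (L : List ℕ) (N : ℕ), cov L N = true → ∀ idx, N ≤ idx → get L idx = 0

/-- row SCAN -/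
def ST_SCAN : Prop :=
  ∀ (n x N : ℕ) (L : List ℕ), 0 < n → n ≤ 10 → scan n x L N 0 = true →
    (∀ idx, N ≤ idx → get L idx = 0) → ∀ c, SymC n c → 0 < tot n c → InL n L c →
    ¬ (x ≤ totA n c ∧ x ≤ totB n c)

/-- row LEVEL: from `k` to `k + 1` vertices -/
def ST_LEVEL : Prop :=
  ∀ (I : ℝ → ℝ → Prop) (k t : ℕ) (P L : List ℕ) (c : Col), 2 ≤ k → k ≤ 9 →
    (∀ idx, get P idx ≠ 0 → StepOK I k t L (get P idx)) →
    SymC (k + 1) c → Rl I (k + 1) c → 2 * t ≤ tot (k + 1) c → Cap (k + 1) c →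
    ∀ r, r < k + 1 → (∀ v, v ≤ k → dgr (k + 1) (dcol (k + 1) r 0 c) k ≤
      dgr (k + 1) (dcol (k + 1) r 0 c) v) →
    0 < tot k (dcol (k + 1) r 0 c) → InL k P (dcol (k + 1) r 0 c) → InL (k + 1) L c

/-- row LEVELAV: the same, the vertex found by averaging -/
def ST_LEVELAV : Prop :=
  ∀ (I : ℝ → ℝ → Prop) (k t t' : ℕ) (P L : List ℕ), 2 ≤ k → k ≤ 9 → 0 < t' →
    (∀ idx, get P idx ≠ 0 → StepOK I k t L (get P idx)) →
    (∀ E, 2 * t ≤ E → 2 * t' ≤ E - 2 * (E / (k + 1))) →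
    (∀ c, SymC k c → Rl I k c → 2 * t' ≤ tot k c → Cap k c → InL k P c) →
    ∀ c, SymC (k + 1) c → Rl I (k + 1) c → 2 * t ≤ tot (k + 1) c → Cap (k + 1) c →
      InL (k + 1) L c

/-- row FILTL: from the list `P` to the list `L` of the interval `I` -/
def ST_FILTL : Prop :=
  ∀ (I : ℝ → ℝ → Prop) (P L : List ℕ) (N : ℕ), (∀ idx, N ≤ idx → get P idx = 0) →
    (∀ j, j < N → (∀ c, SymC 7 c → get P j = code 7 c → ¬ Rl I 7 c) ∨
      ∃ idx, get L idx = get P j) →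
    ∀ c, SymC 7 c → 0 < tot 7 c → Rl I 7 c → InL 7 P c → InL 7 L c

/-- row TWO: the start of the chain -/
def ST_TWO : Prop :=
  ∀ c : Col, SymC 2 c → 2 ≤ tot 2 c →
    InL 2 [4 + 2 ^ 20 + (8 + 2 ^ 21) * 2 ^ 200] c

end RTwo
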